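import Pool.Agent.ZPU.Stmts

set_option autoImplicit false

namespace Pool.Agent.ZPU.H16

open Polynomial Pool.Agent.ZPT Pool.Agent.ZP3 Pool.Agent.ZPU

/-- **Row RWP**. -/
theorem rwp (wwn : WWNStmt) : RWPStmt := by
  intro p hp hp3 K _ _ _ hK a n η w ha hη hw hn hle
  have hp0 : 0 < p := hp.pos
  rcases hw with rfl | ⟨b, hb, hw⟩
  · exact ⟨0, by rw [pow_zero]⟩
  obtain ⟨h1, -, h3, -⟩ := wwn p hp hp3 K hK b w hb hw
  obtain ⟨k1, -, -, -⟩ := wwn p hp hp3 K hK a η ha hη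
  have hba : b ≤ a := by
    by_contra hc
    push Not at hc
    have hpinv : (0 : ℝ) < (p : ℝ)⁻¹ := inv_pos.mpr (by exact_mod_cast hp0)
    have hw0 : 0 < ‖w - 1‖ := by
      rcases (norm_nonneg (w - 1)).lt_or_eq with h | h
      · exact h
      · exfalso
        rw [← h, zero_pow] at h1
        · exact hpinv.ne h1
        · exact (Nat.mul_pos (pow_pos hp0 _) (by omega)).ne'
    have h4 := pow_le_pow_left₀ (pow_nonneg (norm_nonneg (w - 1)) n) hle (p ^ (a - 1) * (p - 1))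
    rw [k1, ← h1, ← pow_mul] at h4
    have h5 : p ^ (b - 1) * (p - 1) ≤ n * (p ^ (a - 1) * (p - 1)) :=
      (pow_le_pow_iff_right_of_lt_one₀ hw0 h3).mp h4
    have h6 : p ^ (b - 1) ≤ n * p ^ (a - 1) := by
      have h7 : p ^ (b - 1) * (p - 1) ≤ (n * p ^ (a - 1)) * (p - 1) := by
        rw [mul_assoc]
        exact h5
      exact Nat.le_of_mul_le_mul_right h7 (by omega)
    have h8 : p * p ^ (a - 1) ≤ p ^ (b - 1) := by
      rw [← pow_succ']
      exact Nat.pow_le_pow_right hp0 (by omega)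
    have h9 : p ≤ n := Nat.le_of_mul_le_mul_right (h8.trans h6) (pow_pos hp0 _)
    omega
  have hpow : w ^ (p ^ a) = 1 := by
    obtain ⟨c, hc⟩ := Nat.pow_dvd_pow p hba
    rw [hc, pow_mul, hw.pow_eq_one, one_pow]
  have := Fact.mk hp
  obtain ⟨s, -, hs⟩ := hη.eq_pow_of_pow_eq_one hpow
  exact ⟨s, hs.symm⟩

end Pool.Agent.ZPU.H16
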